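import Pool.Agent.ATZ.Stmts1

/-!
# Squad ATZ, row HTZ: the heights
-/

open scoped BigOperators

noncomputable section

namespace Pool.Agent.PP.TB.H62

open Pool.Agent.Helper51_AWC Pool.Agent.Helper79_WRA Pool.Agent.PP Pool.Agent.PP.KF
open Pool.Agent.PP.K9 Pool.Agent.PP.K9.H97 Pool.Agent.PP.H75 Pool.Agent.PP.T3 Pool.Agent.PP.T2
open Pool.Agent.PP.T5 Pool.Agent.PP.TB

attribute [local instance] Ideal.Quotient.field

theorem card_cop {ℓ a : ℕ} (hℓ : ℓ.Prime) (ha : 0 < a) :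
    ((Finset.range (ℓ ^ a)).filter (fun j => ¬ ℓ ∣ j)).card = ℓ ^ (a - 1) * (ℓ - 1) := by
  rw [← Nat.totient_prime_pow hℓ ha, Nat.totient_eq_card_coprime]
  congr 1
  apply Finset.filter_congr
  intro j _
  rw [Nat.coprime_pow_left_iff ha, Nat.Prime.coprime_iff_not_dvd hℓ]

/-- the powers with exponent prime to the order -/
theorem sum_pow {Z : Type} [Group Z] [Fintype Z] (f : Z → ℝ) {j : ℕ}
    (hj : (Nat.card Z).Coprime j) : ∑ z, f (z ^ j) = ∑ z, f z :=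
  Fintype.sum_equiv (powCoprime hj) _ _ fun _ => rfl

theorem htz (hzcp : ZcpStmt) (hxch : XchStmt) (hzin : ZinStmt) (hpoz : PozStmt)
    (hpjz : PjzStmt) (hnrz : NrzStmt) : HtzStmt := by
  intro ℓ hℓ M _ hM G _ _ e V Z γ b hD χ hχ h hint
  classical
  have := Fintype.ofFinite G
  have := Fintype.ofFinite Z
  have hpr : ℓ.Prime := Fact.out
  obtain ⟨-, hpow, -, hiz0, -, hcz0, -⟩ := hzcp ℓ M hM G e V Z γ b hD
  have hZp : IsPGroup ℓ Z := hD.tp.pg.to_le hD.le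
  obtain ⟨n, hn⟩ := IsPGroup.iff_card.1 hZp
  obtain ⟨a, ha, han⟩ : ∃ a : ℕ, 0 < a ∧ a = n + 1 := ⟨n + 1, Nat.succ_pos n, rfl⟩
  have hza : ∀ z ∈ Z, z ^ ℓ ^ a = 1 := by
    intro z hz
    have h1 : (⟨z, hz⟩ : Z) ^ Nat.card Z = 1 := pow_card_eq_one'
    have h2 : z ^ Nat.card Z = 1 := congrArg Subtype.val h1
    rw [han, pow_succ, pow_mul, ← hn, h2, one_pow]
  set ζ : ℂ := Complex.exp (2 * Real.pi * Complex.I / (ℓ ^ a : ℕ)) with hζd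
  have hζ : IsPrimitiveRoot ζ (ℓ ^ a) := Complex.isPrimitiveRoot_exp _ (pow_pos hpr.pos a).ne'
  have hχ1 : χ 1 ≠ 0 := irr_one_ne hχ.1
  have hG0 : (Nat.card G : ℂ) ≠ 0 := Nat.cast_ne_zero.2 Nat.card_pos.ne'
  have hl0 : (ℓ : ℂ) ^ h ≠ 0 := pow_ne_zero _ (Nat.cast_ne_zero.2 hpr.ne_zero)
  have hV0 : 0 < Nat.card V := Nat.card_pos
  -- the values
  have hmm : ∀ w : G, ∃ x : ℝ, w ∈ Z → 0 < x ∧ mm M ℓ (Cu w) w (b w) χ χ = (x : ℂ) := by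
    intro w
    by_cases hw : w ∈ Z
    · obtain ⟨x, hx⟩ := (hpoz ℓ M hM G e V Z γ b hD w hw).2 χ hχ
      exact ⟨x, fun _ => hx⟩
    · exact ⟨0, fun h => absurd h hw⟩
  choose X hX using hmm
  set y : G → ℝ := fun w => (Nat.card V : ℝ) * (cz V Z γ w : ℝ) * X w with hy
  have hypos : ∀ w ∈ Z, 0 < y w := by
    intro w hw
    exact mul_pos (mul_pos (Nat.cast_pos.2 hV0) (Nat.cast_pos.2 (hcz0 w hw))) (hX w hw).1
  have hyc : ∀ w ∈ Z, (y w : ℂ) =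
      (Nat.card V : ℂ) * (cz V Z γ w : ℂ) * mm M ℓ (Cu w) w (b w) χ χ := by
    intro w hw
    rw [(hX w hw).2, hy]
    push_cast
    rfl
  -- one element
  have key : ∀ z ∈ Z, ((ℓ ^ (a - 1) * (ℓ - 1) * ℓ ^ h : ℕ) : ℝ) ≤
      ∑ j ∈ (Finset.range (ℓ ^ a)).filter (fun j => ¬ ℓ ∣ j), y (z ^ j) := by
    intro z hz
    obtain ⟨m, hm⟩ := hzin ℓ M hM G e V Z γ b hD z hz a ha (hza z hz) ζ hζ χ hχ.1 χ hχ.1
    refine hnrz ℓ M hM a h ha ζ hζ (fun i => (cz V Z γ z : ℤ) * m i) (fun j => y (z ^ j)) ?_ ?_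
    · intro j hj
      have hzj : z ^ j ∈ Z := Z.pow_mem hz j
      refine ⟨hypos _ hzj, ?_⟩
      have h1 := hm j hj
      have h2 := (hpow z hz j hj).2.2
      change (y (z ^ j) : ℂ) = _
      rw [hyc _ hzj, h2]
      have h3 : (Nat.card V : ℂ) * (cz V Z γ z : ℂ) *
          mm M ℓ (Cu (z ^ j)) (z ^ j) (b (z ^ j)) χ χ =
          (cz V Z γ z : ℂ) * ((Nat.card V : ℂ) *
            mm M ℓ (Cu (z ^ j)) (z ^ j) (b (z ^ j)) χ χ) := by ring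
      rw [h3, h1, Finset.mul_sum]
      refine Finset.sum_congr rfl fun i _ => ?_
      push_cast
      ring
    · intro j _
      have hzj : z ^ j ∈ Z := Z.pow_mem hz j
      change (y (z ^ j) : ℂ) / (ℓ : ℂ) ^ h ∈ RM M
      rw [hyc _ hzj]
      have h1 := (hxch ℓ M hM G e hD.blk (z ^ j) (b (z ^ j)) (hD.lb _ hzj).1.bx.ix χ hχ.1).1
        χ hχ.1
      have h2 : (Nat.card V : ℂ) * (cz V Z γ (z ^ j) : ℂ) *
          mm M ℓ (Cu (z ^ j)) (z ^ j) (b (z ^ j)) χ χ / (ℓ : ℂ) ^ h =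
          (cz V Z γ (z ^ j) : ℂ) * ((Nat.card V : ℂ) * χ 1 / (Nat.card G * (ℓ : ℂ) ^ h)) *
          ((Nat.card G : ℂ) * mm M ℓ (Cu (z ^ j)) (z ^ j) (b (z ^ j)) χ χ / χ 1) := by
        field_simp
      rw [h2]
      exact (RM M).mul_mem ((RM M).mul_mem (natCast_mem (RM M) _) hint) h1
  -- the sum over `Z`
  set S : Finset ℕ := (Finset.range (ℓ ^ a)).filter (fun j => ¬ ℓ ∣ j) with hS
  set φ : ℕ := ℓ ^ (a - 1) * (ℓ - 1) with hφ
  have hφ0 : 0 < φ := Nat.mul_pos (pow_pos hpr.pos _) (Nat.sub_pos_of_lt hpr.one_lt)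
  have hScard : S.card = φ := card_cop hpr ha
  have h1 : (Nat.card Z : ℝ) * ((φ * ℓ ^ h : ℕ) : ℝ) ≤ ∑ z : Z, ∑ j ∈ S, y ((z : G) ^ j) := by
    have h2 : ∑ _z : Z, ((φ * ℓ ^ h : ℕ) : ℝ) ≤ ∑ z : Z, ∑ j ∈ S, y ((z : G) ^ j) :=
      Finset.sum_le_sum fun z _ => key z z.2
    rwa [Finset.sum_const, Finset.card_univ, nsmul_eq_mul, ← Nat.card_eq_fintype_card] at h2
  have h2 : ∑ z : Z, ∑ j ∈ S, y ((z : G) ^ j) = (φ : ℝ) * ∑ z : Z, y z := by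
    rw [Finset.sum_comm]
    have h3 : ∀ j ∈ S, ∑ z : Z, y ((z : G) ^ j) = ∑ z : Z, y z := by
      intro j hj
      have hj' : ¬ ℓ ∣ j := (Finset.mem_filter.1 hj).2
      have hcop : (Nat.card Z).Coprime j := by
        rw [hn]
        exact Nat.Coprime.pow_left n ((Nat.Prime.coprime_iff_not_dvd hpr).2 hj')
      exact sum_pow (fun z : Z => y z) hcop
    rw [Finset.sum_congr rfl h3, Finset.sum_const, hScard, nsmul_eq_mul]
  -- the projection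
  obtain ⟨x, hx, hxle⟩ := (hpjz ℓ M hM G e V Z γ b hD Z le_rfl hD.nrm χ hχ.1).1
  have h3 : ∑ z : Z, y z = (Nat.card V : ℝ) * x := by
    have h4 : ((∑ z : Z, y z : ℝ) : ℂ) = (((Nat.card V : ℝ) * x : ℝ) : ℂ) := by
      push_cast
      rw [← hx, Pw, finsum_eq_sum_of_fintype, Finset.mul_sum]
      refine Finset.sum_congr rfl fun z _ => ?_
      rw [hyc z z.2, mul_assoc]
    exact_mod_cast h4
  rw [h2, h3] at h1
  have h5 : (Nat.card Z : ℝ) * ((φ * ℓ ^ h : ℕ) : ℝ) ≤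
      (φ : ℝ) * ((Nat.card V : ℝ) * iz V Z γ) := by
    refine h1.trans ?_
    refine mul_le_mul_of_nonneg_left ?_ (Nat.cast_nonneg _)
    exact mul_le_mul_of_nonneg_left hxle (Nat.cast_nonneg _)
  have h6 : Nat.card Z * (φ * ℓ ^ h) ≤ φ * (Nat.card V * iz V Z γ) := by exact_mod_cast h5
  have h7 : φ * (ℓ ^ h * Nat.card Z) ≤ φ * (Nat.card V * iz V Z γ) := by
    refine le_trans (le_of_eq ?_) h6
    ring
  exact Nat.le_of_mul_le_mul_left h7 hφ0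

end Pool.Agent.PP.TB.H62
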